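import Pool.Agent.Lib.MP_021685_agTAR.RD
import Pool.Agent.Lib.MP_021685_agTL.L1

/-! T-RANK: the elements of small angle rank have support zero. -/

set_option autoImplicit false

namespace TAR

open Polynomial TK

variable {F : Type} [Field F] [Algebra ℚ F] [FiniteDimensional ℚ F] {q g : ℕ} {I : Type}

/-- The flips act on `e y v` as on `z y`. -/
theorem s_e (hq : 0 < q) (S : SP q g F I) (y : I) (v : F) : S.s y (S.e y v) = (S.e y v)⁻¹ := by
  rw [← S.e_perm hq (S.s y) y y (Or.inr (S.s1 y)) v, S.e_flip hq y v]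

theorem s_e' (hq : 0 < q) (S : SP q g F I) {x y : I} (hxy : x ≠ y) (v : F) : S.s x (S.e y v) = S.e y v := by
  rw [← S.e_perm hq (S.s x) y y (Or.inl (S.s2 x y hxy.symm)) v, S.e_fix y x hxy.symm v]

/-- If `e x u` is a root of unity, its square is `1`. -/
theorem torsion (hq : 0 < q) (S : SP q g F I) (u : F) {x y : I} (hxy : y ≠ x) (γ : F ≃ₐ[ℚ] F)
    (hγ : γ (S.z x) = S.z y ∨ γ (S.z x) = (q : F) / S.z y) {N : ℕ} (hN : 0 < N) (h : S.e x u ^ N = 1) :
    S.e x u ^ 2 = 1 := by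
  set ζ : F := S.e x u with hζ
  have hfin : IsOfFinOrder ζ := isOfFinOrder_iff_pow_eq_one.2 ⟨N, hN, h⟩
  have hprim : IsPrimitiveRoot ζ (orderOf ζ) := IsPrimitiveRoot.orderOf ζ
  have hne : NeZero (orderOf ζ) := ⟨(hfin.orderOf_pos).ne'⟩
  obtain ⟨k, -, hk⟩ := hprim.eq_pow_of_pow_eq_one (ξ := γ ζ) (by rw [← map_pow, hprim.pow_eq_one, map_one])
  have h1 : S.s y (γ ζ) = (γ ζ)⁻¹ := by
    rw [hζ, ← S.e_perm hq γ x y hγ u]
    exact s_e hq S y (γ u)
  have h2 : S.s y (γ ζ) = γ ζ := by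
    rw [← hk, map_pow, hζ, s_e' hq S hxy u]
  have hζ0 : ζ ≠ 0 := by
    intro h0
    rw [h0, zero_pow hN.ne'] at h
    exact zero_ne_one h
  have h3 : γ ζ ≠ 0 := (map_ne_zero γ).2 hζ0
  rw [h2] at h1
  apply γ.injective
  rw [map_pow, map_one, sq]
  nth_rewrite 2 [h1]
  exact mul_inv_cancel₀ h3

theorem mem_group (φ : F →+* ℂ) (f : ℚ[X]) (v : F) (hv : v ≠ 0) (hf : aeval v f = 0) (z z' : F) :
    φ (ee z z' v) ∈ Submonoid.closure {z : ℂ | z ≠ 0 ∧ (aeval z f = 0 ∨ aeval z⁻¹ f = 0)} := by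
  classical
  have hroot : ∀ δ : F ≃ₐ[ℚ] F, φ (δ v) ≠ 0 ∧ aeval (φ (δ v)) f = 0 := by
    intro δ
    refine ⟨(map_ne_zero φ).2 ((map_ne_zero δ).2 hv), ?_⟩
    have h1 : aeval (δ v) f = δ (aeval v f) := Polynomial.aeval_algHom_apply δ v f
    have h2 : aeval (φ.toRatAlgHom (δ v)) f = φ.toRatAlgHom (aeval (δ v) f) :=
      Polynomial.aeval_algHom_apply φ.toRatAlgHom (δ v) f
    rw [h1, hf, map_zero, map_zero] at h2
    exact h2
  unfold ee pr
  rw [div_eq_mul_inv, map_mul, map_inv₀, map_prod, map_prod, ← Finset.prod_inv_distrib]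
  refine Submonoid.mul_mem _ ?_ ?_
  · exact Submonoid.prod_mem _ fun δ _ => Submonoid.subset_closure ⟨(hroot δ).1, Or.inl (hroot δ).2⟩
  · refine Submonoid.prod_mem _ fun δ _ => Submonoid.subset_closure ⟨inv_ne_zero (hroot δ).1, Or.inr ?_⟩
    rw [inv_inv]
    exact (hroot δ).2

/-- A root of a polynomial of angle rank less than `g` has support zero. -/
theorem rank_small (hq : 0 < q) (hg : 2 ≤ g) (S : SP q g F I) (φ : F →+* ℂ) (u : F) (hu : u ≠ 0) (f : ℚ[X])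
    (hfu : aeval u f = 0) (h : RankLT q g f) (x : I) : S.e x u ^ 2 = 1 := by
  classical
  by_contra hne
  obtain ⟨O, hO, hγ⟩ := S.big x
  obtain ⟨y0, hy0, hy0x⟩ := Finset.exists_mem_ne (lt_of_lt_of_le (by omega) hO : 1 < O.card) x
  have hN : ∀ N : ℕ, 0 < N → S.e x u ^ N ≠ 1 := by
    intro N hN h1
    obtain ⟨γ, hγ'⟩ := hγ y0 hy0
    exact hne (torsion hq S u hy0x γ hγ' hN h1)
  obtain ⟨O', hO', hcard⟩ := Finset.exists_subset_card_eq hO
  let e := O'.equivFinOfCardEq hcard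
  let Y : Fin g → I := fun j => (e.symm j).1
  have hYinj : ∀ i j, Y i = Y j → i = j := fun i j hij => e.symm.injective (Subtype.ext hij)
  have hY : ∀ j, ∃ γ : F ≃ₐ[ℚ] F, γ (S.z x) = S.z (Y j) ∨ γ (S.z x) = (q : F) / S.z (Y j) :=
    fun j => hγ _ (hO' (e.symm j).2)
  choose γ hγ using hY
  let w : Fin g → F := fun j => S.e (Y j) (γ j u)
  have hw : ∀ j, w j = γ j (S.e x u) := fun j => S.e_perm hq (γ j) x (Y j) (hγ j) u
  have hw0 : ∀ j, w j ≠ 0 := fun j => S.e_ne (Y j) _ ((map_ne_zero (γ j)).2 hu)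
  obtain ⟨m, b, hm, hrel⟩ := h (fun j => φ (w j)) fun j => by
    refine mem_group φ f (γ j u) ((map_ne_zero (γ j)).2 hu) ?_ _ _
    have h1 : aeval (γ j u) f = γ j (aeval u f) := Polynomial.aeval_algHom_apply (γ j) u f
    rw [h1, hfu, map_zero]
  have hrel' : ∏ j, w j ^ m j = (q : F) ^ b := by
    apply φ.injective
    rw [map_prod, map_zpow₀, map_natCast, ← hrel]
    exact Finset.prod_congr rfl fun j _ => map_zpow₀ φ _ _
  obtain ⟨i, hi⟩ := Function.ne_iff.1 hm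
  have hflip : ∏ j, (S.s (Y i) (w j)) ^ m j = (q : F) ^ b := by
    have h1 := congrArg (S.s (Y i)) hrel'
    rw [map_prod, map_zpow₀, map_natCast] at h1
    rw [← h1]
    exact Finset.prod_congr rfl fun j _ => (map_zpow₀ (S.s (Y i)) _ _).symm
  have h1 : w i ^ m i * ∏ j ∈ Finset.univ.erase i, w j ^ m j = (q : F) ^ b := by
    rw [Finset.mul_prod_erase Finset.univ (fun j => w j ^ m j) (Finset.mem_univ i)]
    exact hrel'
  have h2 : (w i)⁻¹ ^ m i * ∏ j ∈ Finset.univ.erase i, w j ^ m j = (q : F) ^ b := by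
    rw [← hflip, ← Finset.mul_prod_erase Finset.univ (fun j => (S.s (Y i) (w j)) ^ m j) (Finset.mem_univ i)]
    congr 1
    · rw [s_e hq S (Y i) (γ i u)]
    · refine Finset.prod_congr rfl fun j hj => ?_
      rw [s_e' hq S (fun hij => (Finset.ne_of_mem_erase hj) (hYinj i j hij).symm) (γ j u)]
  have hR : ∏ j ∈ Finset.univ.erase i, w j ^ m j ≠ 0 :=
    Finset.prod_ne_zero_iff.2 fun j _ => zpow_ne_zero _ (hw0 j)
  have h3 : w i ^ m i = (w i)⁻¹ ^ m i := mul_right_cancel₀ hR (h1.trans h2.symm)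
  have h4 : w i ^ (2 * m i) = 1 := by
    rw [inv_zpow] at h3
    rw [two_mul, zpow_add₀ (hw0 i)]
    nth_rewrite 2 [h3]
    exact mul_inv_cancel₀ (zpow_ne_zero _ (hw0 i))
  have h5 : w i ^ (2 * (m i).natAbs) = 1 := by
    rcases Int.natAbs_eq (m i) with h6 | h6
    · rw [h6] at h4
      have h7 : (2 * ((m i).natAbs : ℤ)) = ((2 * (m i).natAbs : ℕ) : ℤ) := by push_cast; ring
      rw [h7, zpow_natCast] at h4
      exact h4
    · rw [h6] at h4
      have h7 : (2 * -((m i).natAbs : ℤ)) = -((2 * (m i).natAbs : ℕ) : ℤ) := by push_cast; ring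
      rw [h7, zpow_neg, zpow_natCast, inv_eq_one] at h4
      exact h4
  apply hN (2 * (m i).natAbs) (by have := Int.natAbs_pos.2 hi; omega)
  apply (γ i).injective
  rw [map_pow, map_one, ← hw i]
  exact h5

end TAR
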