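import Pool.Agent.Lib.MP_021685_agTAR.RD
import Pool.Agent.Lib.MP_021685_agTI.TW
import Pool.Agent.Lib.MP_021685_agTI.FT1
import Pool.Agent.Lib.MP_021685_agTI.FT2W
import Pool.Agent.Lib.MP_021685_agTI.FG

/-! T-RANK: from the matching of eigenvalues to products of pairings, for every operator with foreign eigenvalues. -/

set_option autoImplicit false

namespace TAR

open Polynomial TI

private theorem R2_pow {V ι : Type} [AddCommGroup V] [Module ℂ V] (F : V →ₗ[ℂ] V) (b : Module.Basis ι ℂ V)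
    (lam : ι → ℂ) (hb : ∀ i, F (b i) = lam i • b i) (n : ℕ) (i : ι) : (F ^ n) (b i) = lam i ^ n • b i := by
  induction n with
  | zero => simp
  | succ n ih => rw [pow_succ', Module.End.mul_apply, ih, map_smul, hb, smul_smul, pow_succ]

private theorem R2_repr {V ι : Type} [AddCommGroup V] [Module ℂ V] (F : V →ₗ[ℂ] V) (b : Module.Basis ι ℂ V)
    (lam : ι → ℂ) (hb : ∀ i, F (b i) = lam i • b i) (n : ℕ) (j : ι) (v : V) :
    b.repr ((F ^ n) v) j = lam j ^ n * b.repr v j := by
  classical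
  have h : (b.coord j).comp (F ^ n) = (lam j ^ n) • b.coord j := by
    refine b.ext fun i => ?_
    rw [LinearMap.comp_apply, R2_pow F b lam hb n i, map_smul, LinearMap.smul_apply, Module.Basis.coord_apply,
      Module.Basis.repr_self, smul_eq_mul, smul_eq_mul]
    by_cases hij : i = j
    · rw [hij]
    · rw [Finsupp.single_apply, if_neg hij, mul_zero, mul_zero]
  have h2 := LinearMap.congr_fun h v
  simpa only [LinearMap.comp_apply, LinearMap.smul_apply, Module.Basis.coord_apply, smul_eq_mul] using h2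

/-- From the matching of eigenvalues to products of pairings and one Tate form of the fixed variety. -/
theorem full_of_matchOver (q : ℕ) (hq : 0 < q) (P : ℤ[X]) (g : ℕ)
    (hP : ∀ (k d b : ℕ) (z : Fin k → ℂ) (y : ℂ), 0 < d → (∀ a, aeval (z a) P = 0) → Small q P g y →
      (∏ a, z a) ^ (2 * d) * y ^ 2 = (q : ℂ) ^ (d * (k + b)) →
        ∃ (m : ℕ) (e : Fin m ⊕ Fin m ≃ Fin k), ∀ i, z (e (Sum.inl i)) * z (e (Sum.inr i)) = (q : ℂ)) :
    FullOver q P g := by
  intro V W _ _ _ _ _ _ F G hF hc hcG d k b' hd T hT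
  obtain ⟨ι, _, b, lam, hb, hl⟩ := eigenbasis V F hF
  have hs0 : ((Real.sqrt q : ℝ) : ℂ) ≠ 0 := by
    rw [Ne, Complex.ofReal_eq_zero, Real.sqrt_eq_zero (Nat.cast_nonneg q)]
    exact Nat.cast_ne_zero.2 hq.ne'
  have hs2 : ((Real.sqrt q : ℝ) : ℂ) ^ 2 = (q : ℂ) := by
    rw [← Complex.ofReal_pow, Real.sq_sqrt (Nat.cast_nonneg q), Complex.ofReal_natCast]
  refine mem_of_coordW b T _ fun a ha M hM => ?_
  set φ : W →ₗ[ℂ] ℂ := T (fun j => b (a j)) with hφ
  have h2 : (fun j => (F ^ d) (b (a j))) = fun j => (lam (a j)) ^ d • b (a j) := by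
    funext j
    exact R2_pow F b lam hb d (a j)
  have h1 : ∀ w, (∏ j, lam (a j) ^ d) * φ (G w) = ((Real.sqrt q : ℝ) : ℂ) ^ (d * (k + b')) * φ w := by
    intro w
    have h := hT (fun j => b (a j)) w
    rw [h2, T.map_smul_univ, LinearMap.smul_apply, smul_eq_mul] at h
    exact h
  set L : ℂ := ∏ j, lam (a j) ^ d with hL
  have hL0 : L ≠ 0 := by
    intro h0
    apply ha
    refine LinearMap.ext fun w => ?_
    have h := h1 w
    rw [h0, zero_mul] at h
    rw [LinearMap.zero_apply]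
    exact (mul_eq_zero.1 h.symm).resolve_left (pow_ne_zero _ hs0)
  set μ : ℂ := ((Real.sqrt q : ℝ) : ℂ) ^ (d * (k + b')) / L with hμ
  have h3 : ∀ w, φ (G w) = μ * φ w := by
    intro w
    rw [hμ, div_mul_eq_mul_div, eq_div_iff hL0, ← h1 w, mul_comm]
  obtain ⟨y, hy, hyd⟩ := eig G 1 μ φ ha (fun w => by rw [pow_one]; exact h3 w)
  rw [pow_one] at hyd
  have hye : Module.End.HasEigenvalue G y := by
    rw [Module.End.hasEigenvalue_iff_isRoot_charpoly]
    exact hy
  have h4 : (∏ j, lam (a j)) ^ (2 * d) * y ^ 2 = (q : ℂ) ^ (d * (k + b')) := by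
    rw [mul_comm 2 d, pow_mul, ← Finset.prod_pow, hyd, ← mul_pow, ← hL, hμ, mul_div_cancel₀ _ hL0,
      ← pow_mul, mul_comm (d * (k + b')) 2, pow_mul, hs2]
  have h5 : ∀ j, aeval (lam (a j)) P = 0 := by
    intro j
    have h := hl (a j)
    rw [hc, Polynomial.eval_map] at h
    rw [Polynomial.aeval_def]
    exact h
  obtain ⟨m, e, he⟩ := hP k d b' (fun j => lam (a j)) y hd h5 (hcG y hye) h4
  have hk : m + m = k := by
    have h := Fintype.card_congr e
    rw [Fintype.card_sum, Fintype.card_fin, Fintype.card_fin] at h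
    exact h
  have hLq : L = ((Real.sqrt q : ℝ) : ℂ) ^ (d * k) := by
    rw [hL, ← Equiv.prod_comp e, Fintype.prod_sum_type, ← Finset.prod_mul_distrib]
    have h : ∀ i ∈ (Finset.univ : Finset (Fin m)), lam (a (e (Sum.inl i))) ^ d * lam (a (e (Sum.inr i))) ^ d =
        ((Real.sqrt q : ℝ) : ℂ) ^ (2 * d) := by
      intro i _
      rw [← mul_pow, he i, pow_mul, hs2]
    rw [Finset.prod_congr rfl h, Finset.prod_const, Finset.card_univ, Fintype.card_fin, ← pow_mul, ← hk]
    congr 1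
    ring
  have hμb : μ = ((Real.sqrt q : ℝ) : ℂ) ^ (d * b') := by
    rw [hμ, div_eq_iff hL0, hLq, ← pow_add]
    congr 1
    ring
  refine Submodule.subset_span ⟨M, φ, ⟨m, e, fun i => (LinearMap.mul ℂ ℂ).compl₁₂ (b.coord (a (e (Sum.inl i))))
    (b.coord (a (e (Sum.inr i)))), fun i v w => ?_, fun v => ?_⟩, fun w => ?_, fun v w => ?_⟩
  · simp only [LinearMap.compl₁₂_apply, LinearMap.mul_apply', Module.Basis.coord_apply]
    rw [R2_repr F b lam hb, R2_repr F b lam hb, ← he i, mul_pow]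
    ring
  · rw [hM, ← Equiv.prod_comp e, Fintype.prod_sum_type, ← Finset.prod_mul_distrib]
    rfl
  · rw [h3 w, hμb]
  · rw [MultilinearMap.smulRight_apply, LinearMap.smul_apply, smul_eq_mul]

end TAR
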