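import Pool.Agent.Lib.MP_021685_agTAR.R1
import Pool.Agent.Lib.MP_021685_agTAR.R2
import Pool.Agent.Lib.MP_021685_agTL.L3
import Pool.Agent.Lib.MP_021685_agTL.L2
import Pool.Agent.Lib.MP_021685_agTI.FM
import Pool.Agent.Lib.MP_021685_agTI.FB

/-! T-RANK: the criterion for all varieties with foreign Frobenius eigenvalues or of small angle rank. -/

set_option autoImplicit false

namespace TAR

open Polynomial TI TK

/-- The criterion, for products of numbers of degree less than `2 g`, or of angle rank less than `g`, or whose splitting field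
contains no Frobenius eigenvalue. -/
theorem criterionOver {q g r : ℕ} (hq : 0 < q) (hg2 : 2 ≤ g) (h : Fin r → ℤ[X]) (hm : ∀ i, (h i).Monic)
    (hg : ∀ i, (h i).natDegree = g) (hi : ∀ i, Irreducible (h i)) (l : Fin r → ℕ) (hl : ∀ i, (l i).Prime)
    (hlg : ∀ i, 2 * g + 1 < l i) (hlq : ∀ i, ¬ l i ∣ q) (h1 : ∀ i, (l i : ℤ) ∣ resq q (h i))
    (h2 : ∀ i, ¬ (l i : ℤ) ^ 2 ∣ resq q (h i))
    (hsep : ∀ i j, ((h j).map (Int.castRingHom (ZMod (l i)))).Separable)
    (hj : ∀ i j, j ≠ i → ¬ (l i : ℤ) ∣ resq q (h j)) :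
    FullOver q (∏ i, frobPoly q (h i)) g := by
  classical
  apply full_of_matchOver q hq
  intro k d b z y hd hz hy hrel
  have hz' : ∀ a, ∃ (j : Fin r) (x : ℂ), aeval x (h j) = 0 ∧ z a ^ 2 - x * z a + (q : ℂ) = 0 := by
    intro a
    have h0 := hz a
    rw [map_prod, Finset.prod_eq_zero_iff] at h0
    obtain ⟨j, -, h0⟩ := h0
    obtain ⟨x, hx, hx'⟩ := frob_root q hq (h j) (hm j) (z a) h0
    exact ⟨j, x, hx, hx'⟩
  have hq' : (q : ℂ) ≠ 0 := Nat.cast_ne_zero.2 hq.ne'
  have hz0 : ∀ a, z a ≠ 0 := by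
    intro a h0
    obtain ⟨j, x, -, hx'⟩ := hz' a
    rw [h0] at hx'
    apply hq'
    simpa using hx'
  have hy0 : y ≠ 0 := by
    rintro rfl
    rw [zero_pow two_ne_zero, mul_zero] at hrel
    exact pow_ne_zero _ hq' hrel.symm
  apply matching z (q : ℂ) hz0
  · intro a
    obtain ⟨j, x, hx, hx'⟩ := hz' a
    exact sq_ne q hq (h j) (fun h0 => h2 j (by rw [h0]; exact dvd_zero _)) x (z a) hx hx'
  intro a
  have hg0 : 0 < g := by
    obtain ⟨j, -, -, -⟩ := hz' a
    rw [← hg j]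
    rcases Nat.eq_zero_or_pos (h j).natDegree with h0 | h0
    · exact absurd (eq_one_of_monic_natDegree_zero (hm j) h0) (hi j).ne_one
    · exact h0
  obtain ⟨N, hN, hmem⟩ := hy
  obtain ⟨L, hL, hLp⟩ := Submonoid.exists_list_of_mem_closure hmem
  let R : Finset ℂ := Finset.univ.biUnion fun i : Fin r => ((frobPoly q (h i)).map (Int.castRingHom ℂ)).roots.toFinset
  have hR : ∀ (i : Fin r) (v : ℂ), aeval v (frobPoly q (h i)) = 0 → v ∈ R := by
    intro i v hv
    refine Finset.mem_biUnion.2 ⟨i, Finset.mem_univ i, ?_⟩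
    rw [Multiset.mem_toFinset, mem_roots', IsRoot.def]
    refine ⟨?_, ?_⟩
    · exact (Polynomial.map_ne_zero_iff (RingHom.injective_int (Int.castRingHom ℂ))).2 (frob_deg q (h i) (hm i)).2
    · rw [eval_map]
      exact hv
  obtain ⟨K, hfd, hnor, hK⟩ := exists_field (L.toFinset ∪ R) (by
    intro ρ hρ
    rcases Finset.mem_union.1 hρ with hρ | hρ
    · obtain ⟨f, hf0, hf, -⟩ := hL ρ (List.mem_toFinset.1 hρ)
      exact ⟨f, hf0, hf⟩
    · obtain ⟨i, -, hρ⟩ := Finset.mem_biUnion.1 hρ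
      rw [Multiset.mem_toFinset, mem_roots', IsRoot.def, eval_map] at hρ
      refine ⟨(frobPoly q (h i)).map (Int.castRingHom ℚ), ?_, ?_⟩
      · exact (Polynomial.map_ne_zero_iff (RingHom.injective_int (Int.castRingHom ℚ))).2 (frob_deg q (h i) (hm i)).2
      · have h3 : aeval ρ ((frobPoly q (h i)).map (algebraMap ℤ ℚ)) = aeval ρ (frobPoly q (h i)) :=
          aeval_map_algebraMap ℚ ρ _
        exact h3.trans hρ.2)
  have hKz : ∀ (i : Fin r) (x z : ℂ), aeval x (h i) = 0 → z ^ 2 - x * z + (q : ℂ) = 0 → z ∈ K :=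
    fun i x v hx hv => hK v (Finset.mem_union_right _ (hR i v (frob_root' q hq (h i) x v hx hv)))
  obtain ⟨I, hI, S, hS, hS'⟩ := exists_sp' hq h hm hg hi l hl hlg hlq h1 h2 hsep hj K hKz
  have hSP : ∀ v : I, aeval ((S.z v : K) : ℂ) (∏ i, frobPoly q (h i)) = 0 := by
    intro v
    obtain ⟨i, x, hx, hx'⟩ := hS' v
    rw [map_prod]
    refine Finset.prod_eq_zero (Finset.mem_univ i) (frob_root' q hq (h i) (x : ℂ) _ ?_ ?_)
    · change aeval (algebraMap K ℂ x) (h i) = 0
      rw [aeval_algebraMap_apply, hx, map_zero]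
    · have h3 := congrArg (algebraMap K ℂ) hx'
      rw [map_add, map_sub, map_mul, map_pow, map_natCast, map_zero] at h3
      exact h3
  have hKa : ∀ a, z a ∈ K := by
    intro a
    obtain ⟨j, x, hx, hx'⟩ := hz' a
    exact hKz j x (z a) hx hx'
  let w : Fin k → K := fun a => ⟨z a, hKa a⟩
  have hwz : ∀ a, ((w a : K) : ℂ) = z a := fun a => rfl
  have hw : ∀ a, ∃ v, w a = S.z v ∨ w a = (q : K) / S.z v := by
    intro a
    obtain ⟨j, x, hx, hx'⟩ := hz' a
    have h3 : x = ((((w a) ^ 2 + (q : K)) / w a : K) : ℂ) := by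
      push_cast
      rw [hwz, eq_div_iff (hz0 a)]
      linear_combination -hx'
    have h4 : w a ≠ 0 := by
      intro h5
      exact hz0 a (by rw [← hwz, h5]; rfl)
    refine hS j (((w a) ^ 2 + (q : K)) / w a) (w a) ?_ ?_
    · apply (algebraMap K ℂ).injective
      rw [map_zero, ← aeval_algebraMap_apply]
      rw [h3] at hx
      exact hx
    · rw [div_mul_cancel₀ _ h4]
      ring
  have hlist : ∀ L : List ℂ, (∀ ρ ∈ L, ρ ∈ K ∧ Foreign q (∏ i, frobPoly q (h i)) g ρ) →
      ∃ c : K, c ∈ Submonoid.closure {u : K | u ≠ 0 → ∀ x, S.e x u ^ 2 = 1} ∧ (c : ℂ) = L.prod := by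
    intro L
    induction L with
    | nil => exact fun _ => ⟨1, Submonoid.one_mem _, by simp⟩
    | cons ρ L ih =>
      intro hρ
      obtain ⟨c, hc, hc'⟩ := ih fun σ hσ => hρ σ (List.mem_cons_of_mem _ hσ)
      obtain ⟨h3, f, hf0, hf, hfd'⟩ := hρ ρ List.mem_cons_self
      refine ⟨⟨ρ, h3⟩ * c, Submonoid.mul_mem _ (Submonoid.subset_closure ?_) hc, ?_⟩
      · intro hu0
        have hfK : aeval (⟨ρ, h3⟩ : K) f = 0 := by
          apply (algebraMap K ℂ).injective
          rw [map_zero, ← aeval_algebraMap_apply]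
          exact hf
        rcases hfd' with h4 | h4 | h4
        · exact S.foreign (algebraMap K ℂ) hq (⟨ρ, h3⟩ : K) hu0 f hf0 hfK (Or.inl h4)
        · exact rank_small hq hg2 S (algebraMap K ℂ) (⟨ρ, h3⟩ : K) hu0 f hfK h4
        · exact S.foreign (algebraMap K ℂ) hq (⟨ρ, h3⟩ : K) hu0 f hf0 hfK (Or.inr fun v => h4 _ (hSP v))
      · rw [List.prod_cons, ← hc']
        rfl
  obtain ⟨c, hc, hc'⟩ := hlist L fun ρ hρ => ⟨hK ρ (Finset.mem_union_left _ (List.mem_toFinset.2 hρ)), hL ρ hρ⟩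
  rw [hLp] at hc'
  have hc1 : c ^ 2 ∈ Submonoid.closure {u : K | u ≠ 0 → ∀ x, S.e x u ^ 2 = 1} := Submonoid.pow_mem _ hc 2
  have hc0 : c ^ 2 ≠ 0 := by
    apply pow_ne_zero
    intro h3
    rw [h3] at hc'
    exact pow_ne_zero N hy0 hc'.symm
  have hc2 : (q : K) ^ (d * (k + b) * N) ∈ Submonoid.closure {u : K | u ≠ 0 → ∀ x, S.e x u ^ 2 = 1} := by
    refine Submonoid.pow_mem _ (Submonoid.subset_closure ?_) _
    intro _ x
    rw [S.e_q hq x, one_pow]
  have hrel' : (∏ a, w a) ^ (2 * d * N) * c ^ 2 = (q : K) ^ (d * (k + b) * N) := by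
    apply (algebraMap K ℂ).injective
    have h3 : algebraMap K ℂ (∏ a, w a) = ∏ a, z a := by
      rw [map_prod]
      rfl
    have h4 : algebraMap K ℂ c = y ^ N := hc'
    rw [map_mul, map_pow, map_pow, map_pow, h3, h4, map_natCast]
    rw [pow_mul (∏ a, z a) (2 * d) N, pow_mul (q : ℂ) (d * (k + b)) N, ← hrel, mul_pow]
    congr 1
    rw [← pow_mul, ← pow_mul, mul_comm]
  have hbal := fun v => S.balance' hq w hw (2 * d * N) (by positivity) (c ^ 2) _ hc1 hc0 hc2 hrel' v
  obtain ⟨v, hv | hv⟩ := hw a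
  · refine Eq.trans ?_ (Eq.trans (hbal v) ?_)
    · refine congrArg Finset.card (Finset.ext fun b => ?_)
      simp only [Finset.mem_filter, Finset.mem_univ, true_and]
      rw [← hv]
      exact ⟨fun h3 => Subtype.ext h3, fun h3 => congrArg Subtype.val h3⟩
    · refine congrArg Finset.card (Finset.ext fun b => ?_)
      simp only [Finset.mem_filter, Finset.mem_univ, true_and]
      rw [← hv]
      have h3 : (((q : K) / w a : K) : ℂ) = (q : ℂ) / z a := by
        push_cast
        rfl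
      rw [← h3]
      exact ⟨fun h4 => congrArg Subtype.val h4, fun h4 => Subtype.ext h4⟩
  · have hv' : S.z v = (q : K) / w a := by
      have hq'' : (q : K) ≠ 0 := Nat.cast_ne_zero.2 hq.ne'
      rw [hv, div_div_cancel₀ hq'']
    refine Eq.trans ?_ (Eq.trans (hbal v).symm ?_)
    · refine congrArg Finset.card (Finset.ext fun b => ?_)
      simp only [Finset.mem_filter, Finset.mem_univ, true_and]
      rw [← hv]
      exact ⟨fun h3 => Subtype.ext h3, fun h3 => congrArg Subtype.val h3⟩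
    · refine congrArg Finset.card (Finset.ext fun b => ?_)
      simp only [Finset.mem_filter, Finset.mem_univ, true_and]
      rw [hv']
      have h3 : (((q : K) / w a : K) : ℂ) = (q : ℂ) / z a := by
        push_cast
        rfl
      rw [← h3]
      exact ⟨fun h4 => congrArg Subtype.val h4, fun h4 => Subtype.ext h4⟩

end TAR
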