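import Pool.Agent.Lib.MP_021685_agTAR.R3
import Pool.Agent.Lib.MP_021685_agTWF.W8

/-! T-RANK: the main theorem for fields with flips. -/

set_option autoImplicit false

namespace TAR

open Polynomial Module TWF

theorem allWeil_of_crit {q g r : ℕ} (hq : 0 < q) (hg : 2 ≤ g) {t : Fin r → ℤ[X]} (hC : HI.Crit q g r t) : TAR.AllWeil q g t := by
  intro E _ _ hE
  have hcm : ∀ i, NumberField.IsCMField (E i) ∧ finrank ℚ (E i) = 2 * g := by
    intro i
    obtain ⟨l, hl⟩ := hC.loc i
    exact HI.frobField_cm hq t hC.weil hC.irr i l hl (hE i)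
  have hF : HI.HasFlips E := HI.hasFlips hq hC E hE
  have : ∀ i, NumberField.IsCMField (E i) := fun i => (hcm i).1
  refine ⟨hcm, fun Q J _ a P hQ hm hW hP => ⟨fun hI => ?_, fun hD hFull i => ?_⟩⟩
  · exact TAR.full_of_fam hQ hg hF (fun i => (hcm i).2) hW hI P hP
  · exact indep_of_full hQ (hW i) (hD i) hm (fun k φ => (hP _).2 ⟨i, k, φ, rfl⟩) hFull

end TAR
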