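import Pool.Agent.Lib.MP_021685_agTWF.WD

/-! Definitions used in the statement of `MP_021685_ag.AlmostAll` (no new Tate classes on the products with varieties of small
angle rank; all Weil numbers in the fields `E i`). -/

set_option autoImplicit false

namespace TAR

open Polynomial

/-- The angle rank of the polynomial `f` is less than `n`: any `n` members of the multiplicative group generated by the non-zero
roots of `f` are multiplicatively dependent modulo `q`. -/
def RankLT (q n : ℕ) (f : ℚ[X]) : Prop :=
  ∀ w : Fin n → ℂ, (∀ j, w j ∈ Submonoid.closure {z : ℂ | z ≠ 0 ∧ (aeval z f = 0 ∨ aeval z⁻¹ f = 0)}) →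
    ∃ (m : Fin n → ℤ) (b : ℤ), m ≠ 0 ∧ ∏ j, w j ^ m j = (q : ℂ) ^ b

/-- `ρ` is a root of a non-zero rational polynomial `f` such that `f` has degree less than `2 g`, or `f` has angle rank less than
`g`, or the splitting field of `f` in `ℂ` contains no root of `P`. -/
def Foreign (q : ℕ) (P : ℤ[X]) (g : ℕ) (ρ : ℂ) : Prop :=
  ∃ f : ℚ[X], f ≠ 0 ∧ aeval ρ f = 0 ∧
    (f.natDegree < 2 * g ∨ RankLT q g f ∨ ∀ z : ℂ, aeval z P = 0 → z ∉ IntermediateField.adjoin ℚ (f.rootSet ℂ))

/-- A power `y ^ N`, `N > 0`, is a product of numbers `ρ` with `Foreign q P g ρ`. -/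
def Small (q : ℕ) (P : ℤ[X]) (g : ℕ) (y : ℂ) : Prop :=
  ∃ N : ℕ, 0 < N ∧ y ^ N ∈ Submonoid.closure {ρ : ℂ | Foreign q P g ρ}

/-- For every semisimple operator `F` on `V` with characteristic polynomial `P`, every extension degree `d > 0`, every
operator `G` on a space `W` all of whose eigenvalues are roots of products of numbers `ρ` with `Foreign q P g ρ`, all `k` and
`b`: all Tate forms on `V^k × W` over the extension of degree `d` (total weight `k + b`) are linear combinations of products of
Tate pairings on `V` and one Tate form on `W`. -/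
def FullOver (q : ℕ) (P : ℤ[X]) (g : ℕ) : Prop :=
  ∀ (V W : Type) [AddCommGroup V] [Module ℂ V] [FiniteDimensional ℂ V] [AddCommGroup W] [Module ℂ W]
    [FiniteDimensional ℂ W] (F : V →ₗ[ℂ] V) (G : W →ₗ[ℂ] W),
    Module.End.IsSemisimple F → F.charpoly = P.map (Int.castRingHom ℂ) →
      (∀ y, Module.End.HasEigenvalue G y → Small q P g y) →
        ∀ d k b : ℕ, 0 < d → ∀ T : MultilinearMap ℂ (fun _ : Fin k => V) (W →ₗ[ℂ] ℂ),
          (∀ v w, T (fun a => (F ^ d) (v a)) (G w) = ((Real.sqrt q : ℝ) : ℂ) ^ (d * (k + b)) * T v w) →
            T ∈ Submodule.span ℂ {T' : MultilinearMap ℂ (fun _ : Fin k => V) (W →ₗ[ℂ] ℂ) |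
              TK.IsProdOver q d k b F G T'}

/-- The property of the polynomials `t i`, for all number fields `E i` generated by roots of the `frobPoly q (t i)`:

* the `E i` are CM fields of degree `2 g`;
* for all positive integers `Q`, all finite families of Weil numbers `a i k` in the `E i` for `Q` (`k` in a finite set `J i`), and
  all monic integral polynomials `P` whose complex roots are the conjugates of the `a i k` (the characteristic polynomials of the
  Frobenius of the abelian varieties over a field with `Q` elements which are isogenous to products of powers of abelian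
  varieties `A i k` with Frobenius `a i k`): if for every `i` the `a i k` are multiplicatively independent modulo `Q`, all Tate
  classes on the products of such a variety and of any variety whose Frobenius eigenvalues are roots of products of algebraic
  numbers of degree less than `2 g`, or of angle rank less than `g`, or with splitting fields which contain no conjugate of the
  `a i k`, come from pairings and from Tate classes of the latter (`FullOver`); conversely, if the `A i k` are not
  supersingular and not isogenous to each other over any extension, and if the Tate classes on the variety come from pairings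
  (`TI.Full`), then for every `i` the `a i k` are multiplicatively independent modulo `Q`. -/
def AllWeil (q g : ℕ) {r : ℕ} (t : Fin r → ℤ[X]) : Prop :=
  ∀ (E : Fin r → Type) [∀ i, Field (E i)] [∀ i, NumberField (E i)], (∀ i, HIA.IsFrobField q (t i) (E i)) →
    (∀ i, NumberField.IsCMField (E i) ∧ Module.finrank ℚ (E i) = 2 * g) ∧
    ∀ (Q : ℕ) (J : Fin r → Type) [∀ i, Fintype (J i)] (a : ∀ i, J i → E i) (P : ℤ[X]), 0 < Q → P.Monic →
      (∀ (i : Fin r) (k : J i) (φ : E i →+* ℂ), φ (a i k) * starRingEnd ℂ (φ (a i k)) = (Q : ℂ)) →
      (∀ z : ℂ, aeval z P = 0 ↔ ∃ (i : Fin r) (k : J i) (φ : E i →+* ℂ), φ (a i k) = z) →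
        ((∀ i, TWF.IsIndep Q (a i)) → FullOver Q P g) ∧
        ((∀ i, TWF.IsDistinct Q (a i)) → TI.Full Q P → ∀ i, TWF.IsIndep Q (a i))

end TAR
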